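import Pool.Agent.N940.EW.Main0

/-!
# A critical excited random walk in a stationary ergodic environment without the critical scaling

There is a stationary ergodic cookie environment, with four cookies of strength `3/4` at some sites
and none at the other sites (so that the conditions (SE), (POS_1), (UEL), (BD), (MOM) hold), with drift
parameter `delta = 1`, such that for no `b > 0` the variables `X_n / (b sqrt n log n)` converge in
distribution, under the averaged law, to a strictly positive random variable. In particular the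
processes `X_[nt] / (b sqrt n log n)` do not converge to the running maximum of Brownian motion
(at time `1` it is strictly positive and continuous in time).

The sites with cookies are the visits of an irrational rotation to the half circle, the angle being
extremely well approximable by rationals with odd denominators `Q`. With probability close to
`1/2` a window of size `3^(Q^2)` around the origin looks periodic, with density `(1 - 1/Q)/2`
of cookies; in such a window the drift is at most `(1 - 1/Q)` times the size of the range, so that the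
walk of `n = 3^(Q^2)` steps is at most of order `Q sqrt n`, and `Q` is much smaller than `log n`.
-/

set_option autoImplicit false

open MeasureTheory Filter Topology

namespace Pool.Agent.Results.MP_3ce60b_pr.CriticalWalkCounterexample

noncomputable section

open Classical in
/-- The excited random walk in the cookie environment `e`, driven by the marks `U`: if at time `n`
the walk makes its `i`-th visit to its present site `x` (`i` is the number of `j` in `0..n` with
`X_j = X_n`), it goes to `x + 1` if `U n < e x i` and to `x - 1` otherwise. -/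
def walk (e : ℤ → ℕ → ℝ) (U : ℕ → ℝ) : ℕ → ℤ
  | 0 => 0
  | (n + 1) =>
    if U n < e (walk e U n)
      ((Finset.univ.filter (fun j : Fin (n + 1) => walk e U j = walk e U n)).card)
    then walk e U n + 1 else walk e U n - 1

/-- Law of the marks: independent uniform variables on `[0, 1]`. -/
def uniformMarks : Measure (ℕ → ℝ) :=
  Measure.infinitePi (fun _ : ℕ => (volume : Measure ℝ).restrict (Set.Icc 0 1))

/-- The shift of the environment by one site. -/
def shift (e : ℤ → ℕ → ℝ) : ℤ → ℕ → ℝ := fun z => e (z + 1)

/-- `N_ep = sup {i >= 1 : |e(0,i) - 1/2| >= ep}`, with `sup` of the empty set equal to `0`. -/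
def lastCookie (ep : ℝ) (e : ℤ → ℕ → ℝ) : ℕ := sSup {i : ℕ | 1 ≤ i ∧ ep ≤ |e 0 i - 1 / 2|}

/-- The total drift of the cookies at the origin, `sum_{i >= 1} (2 e(0,i) - 1)`. -/
def totalDrift (e : ℤ → ℕ → ℝ) : ℝ := ∑' i : ℕ, (2 * e 0 (i + 1) - 1)

/-- Under the averaged law `X_n / (b sqrt n log n)` converges in distribution to `nu`. -/
def ConvergesTo (P : Measure (ℤ → ℕ → ℝ)) (b : ℝ) (nu : Measure ℝ) : Prop :=
  ∀ f : BoundedContinuousFunction ℝ ℝ,
    Tendsto (fun n : ℕ => ∫ q : (ℤ → ℕ → ℝ) × (ℕ → ℝ),
      f ((walk q.1 q.2 n : ℝ) / (b * (Real.sqrt n * Real.log n))) ∂(P.prod uniformMarks))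
      atTop (𝓝 (∫ y, f y ∂nu))

theorem walk_eq (e : ℤ → ℕ → ℝ) (U : ℕ → ℝ) (n : ℕ) :
    walk e U n = Pool.Agent.N940.EW.X e U n := by
  induction n using Nat.strong_induction_on with
  | _ n ih =>
    cases n with
    | zero => rw [walk, Pool.Agent.N940.EW.X]
    | succ n =>
      rw [walk, Pool.Agent.N940.EW.X, ih n (Nat.lt_succ_self n)]
      have h : ∀ j : Fin (n + 1), walk e U j = Pool.Agent.N940.EW.X e U j := fun j => ih j j.2
      simp only [h]

/-- **Main theorem.** -/
theorem result : ∃ P : Measure (ℤ → ℕ → ℝ), IsProbabilityMeasure P ∧ Ergodic shift P ∧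
    (∀ᵐ e ∂P, ∀ z i, 1 / 2 ≤ e z i ∧ e z i ≤ 3 / 4) ∧
    (∀ᵐ e ∂P, ∀ z i, 4 < i → e z i = 1 / 2) ∧
    (∀ ep : ℝ, 0 < ep → Integrable (fun e => (lastCookie ep e : ℝ)) P) ∧
    Integrable totalDrift P ∧ ∫ e, totalDrift e ∂P = 1 ∧
    ∀ b : ℝ, 0 < b → ∀ nu : Measure ℝ, IsProbabilityMeasure nu → nu (Set.Iic 0) = 0 →
      ¬ ConvergesTo P b nu := by
  obtain ⟨th, hirr, hth⟩ := Pool.Agent.N940.EW.Main0.fin
  obtain ⟨hp, herg⟩ := Pool.Agent.N940.EW.Main0.erg th hirr
  obtain ⟨h1, h2, h3, h4, h5⟩ := Pool.Agent.N940.EW.Main0.par th
  refine ⟨Pool.Agent.N940.EW.lawE th, hp, herg, h1, h2, h5, h3, h4, ?_⟩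
  intro b hb nu hnu hnu0 hconv
  have := hnu
  have := hp
  refine Pool.Agent.N940.EW.Main0.noconv hp hth hb hnu hnu0 ?_
  intro f
  have h6 := hconv f
  simp only [walk_eq] at h6
  exact h6

end

end Pool.Agent.Results.MP_3ce60b_pr.CriticalWalkCounterexample
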